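import Pool.Agent.MP_eae0ed_lc.Model

set_option autoImplicit false

open Pool.Agent.LIO

namespace Pool.Agent.Results.MP_eae0ed_lc.LIO_false

/-- **The LIO conjecture is false.** Let `code` be any injective numbering of the `Δ₀` formulas
`θ(x)` (for instance the standard Goedel numbering) and let `n ≥ 1` be a standard number. There
are a model `M` of `IΔ₀` (even of all true sentences of arithmetic), an element `a` with
`y = 2 ^ (a ^ n)` in `M`, and a `Δ₀` formula `Γ(x, y, z)` such that
`M ⊨ Γ(a, 2 ^ (a ^ n), code θ) ↔ θ(a)` for every `Δ₀` formula `θ(x)`. -/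
theorem result (code : Delta0 1 → ℕ) (hcode : Function.Injective code) (n : ℕ) (hn : 1 ≤ n) :
    ∃ (M : Type) (_ : arith.Structure M), arith.ElementarilyEquivalent ℕ M ∧ ModelsIDelta0 M ∧
      ∃ a y : M, IsTwoPow (powM a n) y ∧
        ∃ Γ : Delta0 3, ∀ θ : Delta0 1,
          (Γ.1.Realize ![a, y, numM M (code θ)] ↔ θ.1.Realize ![a]) :=
  main code hcode n hn

end Pool.Agent.Results.MP_eae0ed_lc.LIO_false
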